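import Pool.Agent.LSG.StmtsF

/-!
# Squad LSN, row ABN: infinitely many copies (groups which are not abelian)
-/

set_option autoImplicit false

namespace Pool.Agent.LSN.H40

open Set Topology
open scoped Pointwise
open Pool.Agent.LSG

/-- the code of the triple `(m, n, k)` -/
def code (m n k : ℕ) : ℕ := Nat.pair m (Nat.pair n k)

theorem code_inj {m n k m' n' k' : ℕ} (h : code m n k = code m' n' k') :
    m = m' ∧ n = n' ∧ k = k' := by
  unfold code at h
  obtain ⟨h1, h2⟩ := Nat.pair_eq_pair.1 h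
  obtain ⟨h3, h4⟩ := Nat.pair_eq_pair.1 h2
  exact ⟨h1, h3, h4⟩

theorem le_code (m n k : ℕ) : k ≤ code m n k :=
  (Nat.right_le_pair n k).trans (Nat.right_le_pair m _)

/-- the tent -/
noncomputable def tent (t : ℝ) (k : ℕ) : ℝ := max 0 (1 - |t - k|)

theorem tent_nonneg (t : ℝ) (k : ℕ) : 0 ≤ tent t k := le_max_left _ _

theorem tent_ne {t : ℝ} {k : ℕ} (h : tent t k ≠ 0) : |t - k| < 1 := by
  by_contra hc
  push Not at hc
  apply h
  unfold tent
  exact max_eq_left (by linarith)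

theorem tent_supp_finite (t : ℝ) : (Function.support fun k : ℕ => tent t k).Finite := by
  refine (Set.finite_Iic ⌈t + 1⌉₊).subset ?_
  intro k hk
  have h1 := abs_lt.1 (tent_ne hk)
  have h2 : (k : ℝ) ≤ t + 1 := by linarith [h1.1]
  have h3 : (k : ℝ) ≤ (⌈t + 1⌉₊ : ℕ) := h2.trans (Nat.le_ceil _)
  exact_mod_cast h3

theorem tent_sum (t : ℝ) (ht : 1 ≤ t) : ∑ᶠ k : ℕ, tent t k = 1 := by
  set j := ⌊t⌋₊ with hj
  have h1 : (j : ℝ) ≤ t := Nat.floor_le (by linarith)
  have h2 : t < j + 1 := Nat.lt_floor_add_one t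
  have hs : (Function.support fun k : ℕ => tent t k) ⊆ ((({j, j + 1} : Finset ℕ)) : Set ℕ) := by
    intro k hk
    have h3 := abs_lt.1 (tent_ne hk)
    have h4 : (k : ℝ) < (j : ℝ) + 2 := by linarith [h3.1]
    have h5 : (j : ℝ) < (k : ℝ) + 1 := by linarith [h3.2]
    have h6 : k < j + 2 := by exact_mod_cast h4
    have h7 : j < k + 1 := by exact_mod_cast h5
    simp only [Finset.coe_insert, Finset.coe_singleton, Set.mem_insert_iff, Set.mem_singleton_iff]
    omega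
  rw [finsum_eq_sum_of_support_subset _ hs, Finset.sum_pair (by omega)]
  have h3 : tent t j = 1 - (t - j) := by
    unfold tent
    rw [abs_of_nonneg (by linarith)]
    exact max_eq_right (by linarith)
  have h4 : tent t (j + 1) = t - j := by
    unfold tent
    have h5 : t - ((j + 1 : ℕ) : ℝ) ≤ 0 := by push_cast; linarith
    rw [abs_of_nonpos h5]
    push_cast
    rw [max_eq_right (by linarith)]
    ring
  rw [h3, h4]
  ring

theorem tent_cont {H : Type} [TopologicalSpace H] (θ : C(H, ℝ)) (k : ℕ) :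
    Continuous fun h => Real.sqrt (tent (θ h) k) := by
  unfold tent
  fun_prop

/-- a bound for the pairs -/
theorem bound {H : Type} [Group H] (V : Set H) (d : ℕ → H)
    (hd : ∀ g : H, {p : ℕ × ℕ | p.1 ≠ p.2 ∧ ∃ v ∈ V, ∃ w ∈ V,
      g * (w * d p.2) = v * d p.1}.Finite) (x x' : H) :
    ∃ N : ℕ, 2 ≤ N ∧ ∀ s s', s ≠ s' →
      (∃ v ∈ V, ∃ w ∈ V, (x⁻¹ * x') * (w * d s') = v * d s) → s + 2 ≤ N := by
  obtain ⟨M, hM⟩ := ((hd (x⁻¹ * x')).image Prod.fst).bddAbove
  refine ⟨M + 2, by omega, ?_⟩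
  intro s s' hne h
  have h1 : s ≤ M := hM ⟨(s, s'), ⟨hne, h⟩, rfl⟩
  omega

theorem sep_closure {H : Type} [TopologicalSpace H] [TopologicalSpace.MetrizableSpace H]
    (S : Set H) (hS : S.Countable) : TopologicalSpace.SeparableSpace (closure S) := by
  letI := TopologicalSpace.metrizableSpaceMetric H
  exact (hS.isSeparable.closure).separableSpace

theorem countable_closure {H : Type} [Group H] (d : ℕ → H) :
    ((Subgroup.closure (Set.range d) : Subgroup H) : Set H).Countable := by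
  have h1 : Subgroup.closure (Set.range d) = (FreeGroup.lift d).range := by
    rw [FreeGroup.range_lift_eq_closure]
  rw [h1, MonoidHom.coe_range]
  haveI : Countable (FreeGroup ℕ) := inferInstanceAs (Countable (Quot _))
  exact Set.countable_range _

theorem abn (hSlo : SloStmt) (hSdn : SdnStmt) (hPcn : PcnStmt) (hThn : ThnStmt) : AbnStmt := by
  intro H _ _ _ _ hU
  obtain ⟨V, hVn, d, hd1, hd2⟩ := hSdn H hU
  set L : Subgroup H := (Subgroup.closure (Set.range d)).topologicalClosure with hL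
  have hLc : IsClosed (L : Set H) := Subgroup.isClosed_topologicalClosure _
  have hdL : ∀ s, d s ∈ L := fun s =>
    Subgroup.le_topologicalClosure _ (Subgroup.subset_closure ⟨s, rfl⟩)
  have hLs : TopologicalSpace.SeparableSpace L := sep_closure _ (countable_closure d)
  obtain ⟨χ, l, ξ, hP⟩ := hPcn H L hLc hLs V hVn
  choose N hN2 hN using bound V d hd2
  obtain ⟨θ, hθL, hθN⟩ := hThn H L hLc V χ l ξ hP N
  obtain ⟨hl, hχf, hχ1, hχV, hξ, hfin⟩ := hP
  have hact : ∀ m h, χ m h ≠ 0 → ActN L χ m h := by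
    intro m h hm
    exact ⟨1, L.one_mem, by rwa [mul_one]⟩
  have hex : ∀ h, ∃ m, χ m h ≠ 0 := by
    intro h
    by_contra hc
    push Not at hc
    have h1 := hχ1 h
    have h2 : ∀ m, (χ m h) ^ 2 = (0 : ℝ) := by
      intro m
      rw [hc m]
      norm_num
    simp only [h2, finsum_zero] at h1
    exact zero_ne_one h1
  have hθ2 : ∀ h, 2 ≤ θ h := by
    intro h
    obtain ⟨m, hm⟩ := hex h
    have h1 := hθN h m m (hact m h hm) (hact m h hm)
    have h2 : ((2 : ℕ) : ℝ) ≤ (N (ξ m h) (ξ m h) : ℝ) := by exact_mod_cast hN2 _ _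
    push_cast at h2
    linarith
  -- the functions
  let a : ℕ → ℕ × ℕ → C(H, ℝ) := fun _ b =>
    ⟨fun h => Real.sqrt (tent (θ h) b.2) * χ b.1 h, (tent_cont θ b.2).mul (χ b.1).continuous⟩
  have ha : ∀ n b h, a n b h = Real.sqrt (tent (θ h) b.2) * χ b.1 h := fun _ _ _ => rfl
  let τ : ℕ → ℕ × ℕ → H ≃ₜ H := fun n b =>
    Homeomorph.mulRight ((l b.1)⁻¹ * d (code b.1 n b.2))
  have hτ : ∀ n b h, τ n b h = h * ((l b.1)⁻¹ * d (code b.1 n b.2)) := fun _ _ _ => rfl
  have hane : ∀ n b h, a n b h ≠ 0 → χ b.1 h ≠ 0 ∧ |θ h - b.2| < 1 := by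
    intro n b h hab
    rw [ha n b h] at hab
    refine ⟨right_ne_zero_of_mul hab, tent_ne ?_⟩
    intro h0
    apply left_ne_zero_of_mul hab
    rw [h0, Real.sqrt_zero]
  refine hSlo H (ℕ × ℕ) a τ ?_ ?_ ?_ ?_
  · -- locally finite for fixed n
    intro n h0
    obtain ⟨W1, hW1, hf1⟩ := hχf h0
    have hW2 : {h : H | |θ h - θ h0| < 1} ∈ nhds h0 := by
      have hc : Filter.Tendsto (fun h => |θ h - θ h0|) (nhds h0) (nhds |θ h0 - θ h0|) :=
        ((θ.continuous.sub continuous_const).abs).tendsto h0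
      rw [sub_self, abs_zero] at hc
      exact hc.eventually (gt_mem_nhds one_pos)
    refine ⟨W1 ∩ {h : H | |θ h - θ h0| < 1}, Filter.inter_mem hW1 hW2, ?_⟩
    refine (hf1.prod (Set.finite_Iic ⌈θ h0 + 2⌉₊)).subset ?_
    rintro ⟨m, k⟩ ⟨h, hh1, hh2, hh3⟩
    obtain ⟨h4, h5⟩ := hane n (m, k) h hh1
    refine ⟨⟨h, h4, hh2⟩, ?_⟩
    have h6 := abs_lt.1 h5
    have h7 := abs_lt.1 (show |θ h - θ h0| < 1 from hh3)
    simp only at h6
    have h8 : (k : ℝ) ≤ θ h0 + 2 := by linarith [h6.1, h7.2]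
    have h9 : (k : ℝ) ≤ (⌈θ h0 + 2⌉₊ : ℕ) := h8.trans (Nat.le_ceil _)
    exact_mod_cast h9
  · -- the landing sets
    intro h0
    obtain ⟨W, hW, hX⟩ := hfin h0
    choose O hO hOf using fun x : H => hd1 (x⁻¹ * h0)
    set X0 : Set H := {x : H | ∃ m, ∃ h' ∈ W, ActN L χ m h' ∧ ξ m h' = x} with hX0
    have hW2 : (⋂ x ∈ X0, {h : H | x⁻¹ * h ∈ O x}) ∈ nhds h0 := by
      rw [Filter.biInter_mem hX]
      intro x _
      have hc : Filter.Tendsto (fun h => x⁻¹ * h) (nhds h0) (nhds (x⁻¹ * h0)) :=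
        (continuous_const.mul continuous_id).tendsto h0
      exact hc (hO x)
    refine ⟨W ∩ ⋂ x ∈ X0, {h : H | x⁻¹ * h ∈ O x}, Filter.inter_mem hW hW2, ?_⟩
    have hfinS : (⋃ x ∈ X0,
        {s : ℕ | ({h : H | ∃ v ∈ V, h = v * d s} ∩ O x).Nonempty}).Finite :=
      Set.Finite.biUnion hX fun x _ => hOf x
    have hinj : Function.Injective fun p : ℕ × (ℕ × ℕ) => code p.2.1 p.1 p.2.2 := by
      rintro ⟨n, m, k⟩ ⟨n', m', k'⟩ h
      obtain ⟨h1, h2, h3⟩ := code_inj h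
      simp only at h1 h2 h3
      rw [h1, h2, h3]
    refine (hfinS.preimage hinj.injOn).subset ?_
    rintro ⟨n, m, k⟩ ⟨h'', ⟨h, hh, hhe⟩, hhW, hhV⟩
    obtain ⟨hm, -⟩ := hane n (m, k) h hh
    simp only at hm
    rw [hτ] at hhe
    simp only at hhe
    have hzL : ((l m)⁻¹ * d (code m n k))⁻¹ ∈ L :=
      L.inv_mem (L.mul_mem (L.inv_mem (hl m)) (hdL _))
    have hh' : h = h'' * ((l m)⁻¹ * d (code m n k))⁻¹ := by rw [← hhe, mul_inv_cancel_right]
    have hA : ActN L χ m h'' := ⟨_, hzL, by rw [← hh']; exact hm⟩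
    have hξe : ξ m h = ξ m h'' := by
      rw [hh']
      exact hξ m h'' _ hzL
    have hv := hχV m h hm
    have hxX : ξ m h'' ∈ X0 := ⟨m, h'', hhW, hA, rfl⟩
    rw [Set.mem_preimage, Set.mem_iUnion₂]
    refine ⟨ξ m h'', hxX, (ξ m h'')⁻¹ * h'', ⟨(ξ m h)⁻¹ * h * (l m)⁻¹, hv, ?_⟩, ?_⟩
    · show (ξ m h'')⁻¹ * h'' = (ξ m h)⁻¹ * h * (l m)⁻¹ * d (code m n k)
      rw [← hξe, ← hhe]
      simp only [mul_assoc]
    · exact Set.mem_iInter₂.1 hhV _ hxX
  · -- the sum of the squares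
    intro n h
    have h1 : ∀ b : ℕ × ℕ, (a n b h) ^ 2 = (χ b.1 h) ^ 2 * tent (θ h) b.2 := by
      intro b
      rw [ha n b h, mul_pow, Real.sq_sqrt (tent_nonneg _ _), mul_comm]
    rw [finsum_congr h1]
    have hχs : (Function.support fun m => (χ m h) ^ 2).Finite := by
      refine (hχf.point_finite h).subset ?_
      intro m hm
      intro h0
      apply hm
      show (χ m h) ^ 2 = 0
      rw [h0]
      norm_num
    rw [finsum_curry]
    · have h2 : ∀ m : ℕ, ∑ᶠ k : ℕ, (χ m h) ^ 2 * tent (θ h) k = (χ m h) ^ 2 := by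
        intro m
        rw [← mul_finsum, tent_sum _ (by linarith [hθ2 h]), mul_one]
      rw [finsum_congr h2]
      exact hχ1 h
    · refine (hχs.prod (tent_supp_finite (θ h))).subset ?_
      rintro ⟨m, k⟩ hmk
      exact ⟨left_ne_zero_of_mul hmk, right_ne_zero_of_mul hmk⟩
  · -- the slots
    rintro n ⟨m, k⟩ n' ⟨m', k'⟩ h h' hh hh' he
    obtain ⟨hm, hk⟩ := hane n (m, k) h hh
    obtain ⟨hm', hk'⟩ := hane n' (m', k') h' hh'
    simp only at hm hk hm' hk'
    rw [hτ, hτ] at he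
    simp only at he
    set s := code m n k with hs
    set s' := code m' n' k' with hs'
    have hzL : ((l m)⁻¹ * d s) * ((l m')⁻¹ * d s')⁻¹ ∈ L :=
      L.mul_mem (L.mul_mem (L.inv_mem (hl m)) (hdL _))
        (L.inv_mem (L.mul_mem (L.inv_mem (hl m')) (hdL _)))
    have hhz : h' = h * (((l m)⁻¹ * d s) * ((l m')⁻¹ * d s')⁻¹) := by
      rw [← mul_assoc, he, mul_inv_cancel_right]
    have hA' : ActN L χ m' h := ⟨_, hzL, by rw [← hhz]; exact hm'⟩
    have hξ' : ξ m' h' = ξ m' h := by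
      rw [hhz]
      exact hξ m' h _ hzL
    have hv := hχV m h hm
    have hv' := hχV m' h' hm'
    rw [hξ'] at hv'
    have hss : s = s' := by
      by_contra hne
      have h1 := hN (ξ m h) (ξ m' h) s s' hne ⟨(ξ m h)⁻¹ * h * (l m)⁻¹, hv,
        (ξ m' h)⁻¹ * h' * (l m')⁻¹, hv', by
          have e1 : (ξ m h)⁻¹ * ξ m' h * ((ξ m' h)⁻¹ * h' * (l m')⁻¹ * d s') =
              (ξ m h)⁻¹ * (h' * ((l m')⁻¹ * d s')) := by group
          rw [e1, ← he]
          simp only [mul_assoc]⟩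
      have h2 := hθN h m m' (hact m h hm) hA'
      have h3 : k ≤ s := le_code m n k
      have h4 : ((k + 2 : ℕ) : ℝ) ≤ (N (ξ m h) (ξ m' h) : ℝ) := by exact_mod_cast (by omega)
      push_cast at h4
      have h5 := abs_lt.1 hk
      linarith [h5.2]
    obtain ⟨h1, h2, h3⟩ := code_inj hss
    exact ⟨h2, by rw [h1, h3]⟩

end Pool.Agent.LSN.H40
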